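import Pool.Agent.Helper68.KPR.St

set_option autoImplicit false

namespace Pool.Agent.Helper19.KPR

open Pool.Agent.Helper68.KPR

attribute [local instance] FractionRing.liftAlgebra FractionRing.isScalarTower_liftAlgebra
  Ideal.Quotient.field

private theorem aux {A B : Type} [CommRing A] [IsDomain A] [IsDedekindDomain A]
    [CommRing B] [IsDomain B] [IsDedekindDomain B] [Algebra A B] [Module.Finite A B]
    [Module.IsTorsionFree A B] [Algebra.IsSeparable (FractionRing A) (FractionRing B)]
    {p : Ideal A} [p.IsMaximal] [CharZero (A ⧸ p)] (P Q : Ideal B) (hP1 : P ≠ ⊤)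
    (hPQ : IsCoprime P Q) (hP : P * Q = Ideal.map (algebraMap A B) p) :
    ¬ P ∣ differentIdeal A B := by
  let : Algebra (A ⧸ p) (B ⧸ Q) := Ideal.Quotient.algebraQuotientOfLEComap (by
      rw [← Ideal.map_le_iff_le_comap, ← hP]
      exact Ideal.mul_le_right)
  have : IsScalarTower A (A ⧸ p) (B ⧸ Q) := .of_algebraMap_eq' rfl
  have : Module.Finite (A ⧸ p) (B ⧸ Q) :=
    Module.Finite.of_restrictScalars_finite A (A ⧸ p) (B ⧸ Q)
  let : Algebra (A ⧸ p) (B ⧸ P) := Ideal.Quotient.algebraQuotientOfLEComap (by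
      rw [← Ideal.map_le_iff_le_comap, ← hP]
      exact Ideal.mul_le_left)
  have : IsScalarTower A (A ⧸ p) (B ⧸ P) := .of_algebraMap_eq' rfl
  have : Module.Finite (A ⧸ p) (B ⧸ P) :=
    Module.Finite.of_restrictScalars_finite A (A ⧸ p) (B ⧸ P)
  have : Nontrivial (B ⧸ P) := Ideal.Quotient.nontrivial_iff.mpr hP1
  let e : (B ⧸ p.map (algebraMap A B)) ≃ₐ[A ⧸ p] ((B ⧸ P) × B ⧸ Q) :=
    { __ := (Ideal.quotEquivOfEq hP.symm).trans (Ideal.quotientMulEquivQuotientProd P Q hPQ),
      commutes' := Quotient.ind fun _ ↦ rfl }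
  have hx : Algebra.trace (A ⧸ p) (B ⧸ P) 1 ≠ 0 := by
    have h1 := Algebra.trace_algebraMap (R := A ⧸ p) (S := B ⧸ P) 1
    rw [map_one, nsmul_eq_mul, mul_one] at h1
    rw [h1, Nat.cast_ne_zero]
    exact Module.finrank_pos.ne'
  obtain ⟨y, hy⟩ := Ideal.Quotient.mk_surjective (e.symm (1, 0))
  refine not_dvd_differentIdeal_of_intTrace_not_mem A P Q hP y ?_ ?_
  · have := congr((e $hy).2)
    simp at this
    simpa [e, Ideal.Quotient.eq_zero_iff_mem] using this
  · rw [← Ideal.Quotient.eq_zero_iff_mem, ← Algebra.trace_quotient_eq_of_isDedekindDomain,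
      hy, Algebra.trace_eq_of_algEquiv, Algebra.trace_prod_apply]
    simpa using hx

theorem hRDF : StRDF := by
  intro R S K L _ _ _ _ _ _ _ _ _ _ _ _ _ _ _ _ _ _ _ _ _ _ ϖ hϖ Q y hy
  -- characteristic zero
  have : CharZero R := algebraRat.charZero R
  have : CharZero K := charZero_of_injective_algebraMap (IsFractionRing.injective R K)
  have : CharZero (FractionRing R) :=
    charZero_of_injective_algebraMap (IsFractionRing.injective R (FractionRing R))
  have : Algebra.IsSeparable K L := inferInstance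
  have : IsLocalization (Algebra.algebraMapSubmonoid S (nonZeroDivisors R)) (FractionRing S) :=
    IsIntegralClosure.isLocalization _ (FractionRing R) _ _
  have : FiniteDimensional (FractionRing R) (FractionRing S) :=
    .of_isLocalization R S (nonZeroDivisors R)
  have : Algebra.IsSeparable (FractionRing R) (FractionRing S) := inferInstance
  have hint : Algebra.IsIntegral R S := inferInstance
  -- the prime below
  let p := IsLocalRing.maximalIdeal R
  have hQR : Q.asIdeal.under R = p := by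
    have h1 : Q.asIdeal.under R ≠ ⊥ := mt Ideal.eq_bot_of_comap_eq_bot Q.ne_bot
    have h2 : (Q.asIdeal.under R).IsPrime := inferInstance
    exact IsLocalRing.eq_maximalIdeal (h2.isMaximal h1)
  have hϖp : ϖ ∈ p := hϖ.not_isUnit
  have hpϖ : p = Ideal.span {ϖ} := hϖ.maximalIdeal_eq
  have hcz : CharZero (R ⧸ p) := by
    have : Algebra ℚ (R ⧸ p) := inferInstance
    exact algebraRat.charZero (R ⧸ p)
  have hdvd : Q.asIdeal ∣ p.map (algebraMap R S) := by
    rw [Ideal.dvd_iff_le, Ideal.map_le_iff_le_comap]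
    exact hQR.ge
  have hp0 : p.map (algebraMap R S) ≠ ⊥ := by
    rw [Ne, Ideal.map_eq_bot_iff_of_injective (FaithfulSMul.algebraMap_injective R S), hpϖ,
      Ideal.span_singleton_eq_bot]
    exact hϖ.ne_zero
  have hfin : FiniteMultiplicity Q.asIdeal (p.map (algebraMap R S)) :=
    FiniteMultiplicity.of_prime_left Q.prime hp0
  obtain ⟨J, hJ, hQJ⟩ := hfin.exists_eq_pow_mul_and_not_dvd
  set e := multiplicity Q.asIdeal (p.map (algebraMap R S)) with he
  have he0 : e ≠ 0 := by
    intro h0
    rw [h0, pow_zero, one_mul] at hJ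
    exact hQJ (hJ ▸ hdvd)
  have hmax : Q.asIdeal.IsMaximal := Q.isMaximal
  have hcop : IsCoprime (Q.asIdeal ^ e) J := by
    refine IsCoprime.pow_left ?_
    rw [Ideal.isCoprime_iff_sup_eq]
    by_contra hne
    have h1 : Q.asIdeal = Q.asIdeal ⊔ J := hmax.eq_of_le hne le_sup_left
    exact hQJ (Ideal.dvd_iff_le.mpr (h1 ▸ le_sup_right))
  have htop : Q.asIdeal ^ e ≠ ⊤ := by
    intro h1
    exact hmax.ne_top (top_le_iff.mp (h1 ▸ Ideal.pow_le_self he0))
  have hnd := aux (Q.asIdeal ^ e) J htop hcop hJ.symm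
  rw [Ideal.dvd_iff_le, SetLike.not_le_iff_exists] at hnd
  obtain ⟨d, hd, hdQ⟩ := hnd
  -- the product of `d` and `y` is in `S`
  have hyd : ∃ σ : S, algebraMap S L σ = algebraMap S L d * y := by
    have h1 : algebraMap S L d ∈ (1 / Submodule.traceDual R K 1 : Submodule S L) := by
      rw [← coeSubmodule_differentIdeal R K]
      exact ⟨d, hd, rfl⟩
    rw [Submodule.mem_div_iff_forall_mul_mem] at h1
    have h2 : y ∈ Submodule.traceDual R K (1 : Submodule S L) := by
      rw [Submodule.mem_traceDual]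
      intro a ha
      rw [Submodule.mem_one] at ha
      obtain ⟨s, rfl⟩ := ha
      obtain ⟨ρ, hρ⟩ := hy s
      exact ⟨ρ, by rw [Algebra.traceForm_apply, hρ]⟩
    have h3 := h1 y h2
    rw [Submodule.mem_one] at h3
    exact h3
  obtain ⟨σ, hσ⟩ := hyd
  -- the valuations
  have v1 : Q.valuation L (algebraMap S L σ) ≤ 1 := Q.valuation_le_one σ
  have v2 : Q.valuation L (algebraMap R L ϖ) ≤ WithZero.exp (-(e : ℤ)) := by
    rw [IsScalarTower.algebraMap_apply R S L, Q.valuation_of_algebraMap,
      Q.intValuation_le_pow_iff_mem]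
    have h1 : algebraMap R S ϖ ∈ p.map (algebraMap R S) := Ideal.mem_map_of_mem _ hϖp
    rw [hJ] at h1
    exact Ideal.mul_le_left h1
  have v3 : WithZero.exp (-(e : ℤ)) < Q.valuation L (algebraMap S L d) := by
    rw [Q.valuation_of_algebraMap, ← not_le, Q.intValuation_le_pow_iff_mem]
    exact hdQ
  by_contra hcon
  rw [not_lt] at hcon
  have h4 : Q.valuation L (algebraMap S L d) ≤ WithZero.exp (-(e : ℤ)) := by
    calc Q.valuation L (algebraMap S L d) = 1 * Q.valuation L (algebraMap S L d) := (one_mul _).symm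
      _ ≤ Q.valuation L (algebraMap R L ϖ * y) * Q.valuation L (algebraMap S L d) := by gcongr
      _ = Q.valuation L (algebraMap R L ϖ) * Q.valuation L (algebraMap S L σ) := by
        rw [hσ, ← map_mul, ← map_mul]
        congr 1
        ring
      _ ≤ WithZero.exp (-(e : ℤ)) * 1 := by gcongr
      _ = _ := mul_one _
  exact absurd h4 (not_le.mpr v3)

end Pool.Agent.Helper19.KPR
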